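import Pool.Agent.W780.BB.Stm
import Pool.Agent.W174.PG.Basic

set_option autoImplicit false

/-! Project BB (helper780), task BB-FAN (helper12). -/

namespace Pool.Agent.W12.BB.Fan

open Complex Set MeasureTheory Filter Topology Pool.Agent.W780.PG Pool.Agent.W780.BB
open Pool.Agent.W174.PG (lft_line lft_left lft_right online i1 i2 inj side_facts side_of)

open scoped Real ComplexConjugate

variable {n : ℕ} {p : Fin (n + 3) → ℂ}

lemma sf_line (i : Fin (n + 3)) (u v : ℂ) (s : ℝ) :
    sf p i (u + s • (v - u)) = (1 - s) * sf p i u + s * sf p i v := lft_line _ _ _ _ _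

lemma cr_facts {i : Fin (n + 3)} {B A : ℂ} (hB : 0 < sf p i B) (hA : sf p i A < 0) :
    cr p i B A ∈ segment ℝ B A ∧ sf p i (cr p i B A) = 0 := by
  have hd : 0 < sf p i B - sf p i A := by linarith
  constructor
  · rw [segment_eq_image']
    refine ⟨sf p i B / (sf p i B - sf p i A), ⟨by positivity, ?_⟩, rfl⟩
    rw [div_le_one hd]
    linarith
  · unfold cr
    rw [sf_line]
    field_simp
    ring

lemma mem_line {S : Set ℂ} (hS : Convex ℝ S) {u v : ℂ} (hu : u ∈ S) (hv : v ∈ S) {t : ℝ}
    (h0 : 0 ≤ t) (h1 : t ≤ 1) : u + t • (v - u) ∈ S := by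
  apply hS.segment_subset hu hv
  rw [segment_eq_image']
  exact ⟨t, ⟨h0, h1⟩, rfl⟩

/-- if `y` is on the open side `i`, `y1` on its line, and the segment between them does not contain
the end points of the side, then `y1` is on the open side -/
lemma side_of_seg (hp : IsConvexPolygon p) {i : Fin (n + 3)} {y y1 : ℂ} {S : Set ℂ}
    (hS : Convex ℝ S) (hy : y ∈ side p i) (h1 : sf p i y1 = 0) (hyS : y ∈ S) (hy1S : y1 ∈ S)
    (hv : ∀ j, p j ∉ S) : y1 ∈ side p i := by
  obtain ⟨a, b, ha, hb, hab, hy'⟩ := hy
  obtain ⟨s, hs⟩ := online (fun h => i1 i (inj hp h).symm) h1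
  have ha' : a = 1 - b := by linarith
  have hy2 : y = p i + b • (p (i + 1) - p i) := by
    rw [← hy', ha', sub_smul, one_smul, smul_sub]
    ring
  rcases le_or_gt s 0 with h | h
  · exfalso
    apply hv i
    have hbs : 0 < b - s := by linarith
    have e : p i = y + (b / (b - s)) • (y1 - y) := by
      rw [hs, hy2]
      have : p i + s • (p (i + 1) - p i) - (p i + b • (p (i + 1) - p i)) =
          (-(b - s)) • (p (i + 1) - p i) := by
        rw [neg_smul, sub_smul]
        ring
      rw [this, smul_smul]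
      have e2 : b / (b - s) * (-(b - s)) = -b := by
        field_simp
      rw [e2, neg_smul]
      ring
    rw [e]
    refine mem_line hS hyS hy1S (by positivity) ?_
    rw [div_le_one hbs]
    linarith
  · rcases le_or_gt 1 s with h' | h'
    · exfalso
      apply hv (i + 1)
      have hbs : 0 < s - b := by linarith
      have e : p (i + 1) = y + ((1 - b) / (s - b)) • (y1 - y) := by
        rw [hs, hy2]
        have : p i + s • (p (i + 1) - p i) - (p i + b • (p (i + 1) - p i)) =
            (s - b) • (p (i + 1) - p i) := by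
          rw [sub_smul]
          ring
        rw [this, smul_smul]
        have e2 : (1 - b) / (s - b) * (s - b) = 1 - b := by
          field_simp
        rw [e2, sub_smul, one_smul]
        ring
      rw [e]
      refine mem_line hS hyS hy1S (div_nonneg (by linarith) hbs.le) ?_
      rw [div_le_one hbs]
      linarith
    · refine ⟨1 - s, s, by linarith, h, by ring, ?_⟩
      rw [hs, sub_smul, one_smul, smul_sub]
      ring

lemma fan_aux (hR : S_Ref) (hp : IsConvexPolygon p) : ∀ (w : List (Fin (n + 3))) (K : ℕ)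
    (B C A : ℂ), w.length ≤ K →
    ((B ∈ reg p ∧ C ∈ reg p) ∨ ∃ k, B ∈ side p k ∧ C ∈ side p k) → Ch p w B A →
    (∀ a ∈ VK p K, a ∉ convexHull ℝ ({A, B, C} : Set ℂ)) → Ch p w C A := by
  intro w
  induction w with
  | nil =>
    intro K B C A _ _ hch _
    exact hch
  | cons i w ih =>
    intro K B C A hK hbase hch hV
    obtain ⟨hB, hA, hcr, hrest⟩ := hch
    obtain ⟨hr1, _, _, hr4, _, hr6, _⟩ := hR n p hp
    obtain ⟨K', rfl⟩ : ∃ K', K = K' + 1 := ⟨K - 1, by rw [List.length_cons] at hK; omega⟩
    rw [List.length_cons] at hK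
    have hC : 0 < sf p i C := by
      rcases hbase with h | ⟨k, hBk, hCk⟩
      · exact h.2 i
      · have hik : i ≠ k := by
          rintro rfl
          have : sf p i B = 0 := (side_facts hp i hBk).2.1
          linarith
        exact (side_facts hp k hCk).2.2 i hik
    have hconv : Convex ℝ (convexHull ℝ ({A, B, C} : Set ℂ)) := convex_convexHull ℝ _
    have mA : A ∈ convexHull ℝ ({A, B, C} : Set ℂ) := subset_convexHull ℝ _ (by simp)
    have mB : B ∈ convexHull ℝ ({A, B, C} : Set ℂ) := subset_convexHull ℝ _ (by simp)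
    have mC : C ∈ convexHull ℝ ({A, B, C} : Set ℂ) := subset_convexHull ℝ _ (by simp)
    obtain ⟨sB, zB⟩ := cr_facts hB hA
    obtain ⟨sC, zC⟩ := cr_facts hC hA
    have mY : cr p i B A ∈ convexHull ℝ ({A, B, C} : Set ℂ) := hconv.segment_subset mB mA sB
    have mY1 : cr p i C A ∈ convexHull ℝ ({A, B, C} : Set ℂ) := hconv.segment_subset mC mA sC
    have hvert : ∀ j, p j ∉ convexHull ℝ ({A, B, C} : Set ℂ) := fun j =>
      hV (p j) ⟨[], Nat.zero_le _, j, rfl⟩
    -- the crossing points are on the open side
    have hY : cr p i B A ∈ side p i := by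
      refine side_of hp i (fun j => ?_) zB (fun k hk => hvert k (hk ▸ mY))
      by_cases hj : j = i
      · rw [hj]; exact zB.ge
      · exact (hcr j hj).le
    have hY1 : cr p i C A ∈ side p i := side_of_seg hp hconv hY zC mY mY1 hvert
    refine ⟨hC, hA, fun j hj => (side_facts hp i hY1).2.2 j hj, ?_⟩
    refine ih K' (cr p i B A) (cr p i C A) (rf p i A) (by omega) (Or.inr ⟨i, hY, hY1⟩) hrest ?_
    rintro a ⟨w2, hw2, j, rfl⟩ ha
    refine hV (rf p i (uf p w2 (p j))) ⟨i :: w2, by rw [List.length_cons]; omega, j, rfl⟩ ?_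
    -- the preimage of the triangle is convex
    have hpre : Convex ℝ {z | rf p i z ∈ convexHull ℝ ({A, B, C} : Set ℂ)} := by
      intro z hz z' hz' s t hs ht hst
      rw [Set.mem_ofPred_eq] at hz hz' ⊢
      have e : s • z + t • z' = z + t • (z' - z) := by
        have : s = 1 - t := by linarith
        rw [this, sub_smul, one_smul, smul_sub]
        ring
      rw [e, hr6]
      exact mem_line hconv hz hz' ht (by linarith)
    have hsub : convexHull ℝ ({rf p i A, cr p i B A, cr p i C A} : Set ℂ) ⊆
        {z | rf p i z ∈ convexHull ℝ ({A, B, C} : Set ℂ)} := by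
      refine convexHull_min ?_ hpre
      intro z hz
      rcases hz with rfl | rfl | rfl
      · rw [Set.mem_ofPred_eq, hr1]
        exact mA
      · rw [Set.mem_ofPred_eq, hr4 _ _ zB]
        exact mY
      · rw [Set.mem_ofPred_eq, hr4 _ _ zC]
        exact mY1
    exact hsub ha

theorem fan (hR : S_Ref) : S_Fan := by
  intro n p hp K w B C A hw hB hC hch hV
  exact fan_aux hR hp w K B C A hw (Or.inl ⟨hB, hC⟩) hch hV

end Pool.Agent.W12.BB.Fan
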