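import Pool.Agent.W780.BB.Stm

set_option autoImplicit false

/-! Project BB (helper780), task BB-UNIF (helper12). -/

namespace Pool.Agent.W12.BB.Unif

open Complex Set MeasureTheory Filter Topology Pool.Agent.W780.PG Pool.Agent.W780.BB

open scoped Real ComplexConjugate

theorem unif (hA : S_Alt) (hT : S_Trip) : S_Unif := by
  intro n p hp T
  obtain ⟨N, d1, hd1, hA⟩ := hA n p hp
  obtain ⟨d2, hd2, hT⟩ := hT n p hp
  obtain ⟨d, hd⟩ : ∃ d, d = min d1 d2 := ⟨_, rfl⟩
  have hd0 : 0 < d := by rw [hd]; exact lt_min hd1 hd2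
  have hdd1 : d ≤ d1 := by rw [hd]; exact min_le_left _ _
  have hdd2 : d ≤ d2 := by rw [hd]; exact min_le_right _ _
  refine ⟨(N + 2) * (⌊T / d⌋₊ + 1), ?_⟩
  intro u y θ l m hy hs hsum
  have hl : ∀ k < m, 0 < l k := fun k hk => (hs k hk).1
  -- one window
  have hwin : ∀ a : ℕ, a + (N + 2) ≤ m → d ≤ ∑ k ∈ Finset.range (N + 2), l (a + k) := by
    intro a ha
    have hpos : ∀ k ∈ Finset.range (N + 2), 0 ≤ l (a + k) := fun k hk =>
      (hl _ (by have := Finset.mem_range.1 hk; omega)).le
    by_cases halt : ∀ k, k + 2 ≤ N + 2 → u (a + (k + 2)) = u (a + k)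
    · obtain ⟨k, hk, hk2⟩ := hA (fun k => u (a + k)) (fun k => y (a + k)) (fun k => θ (a + k))
        (fun k => l (a + k)) (N + 2) (fun k hk => hy _ (by omega))
        (fun k hk => by
          have := hs (a + k) (by omega)
          simpa only [add_assoc] using this)
        halt (by omega)
      have h1 := Finset.single_le_sum hpos (Finset.mem_range.2 hk)
      linarith
    · push Not at halt
      obtain ⟨k, hk, hne⟩ := halt
      have s0 := hs (a + k) (by omega)
      have s1 := hs (a + k + 1) (by omega)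
      have hy0 := hy (a + k) (by omega)
      have hy1 := hy (a + k + 1) (by omega)
      have hy2 := hy (a + k + 1 + 1) (by omega)
      have h1 := hT (u (a + k)) (u (a + k + 1)) (u (a + k + 1 + 1)) (y (a + k)) (y (a + k + 1))
        (y (a + k + 1 + 1)) (θ (a + k)) (l (a + k)) (l (a + k + 1)) (Ne.symm s0.2.2.2)
        (Ne.symm s1.2.2.2) (Ne.symm hne) hy0 hy1 hy2 s0.1 s1.1 s0.2.1
        (by rw [← s0.2.2.1]; exact s1.2.1)
      have h2 : l (a + k) + l (a + k + 1) ≤ ∑ k ∈ Finset.range (N + 2), l (a + k) := by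
        have h3 : ({k, k + 1} : Finset ℕ) ⊆ Finset.range (N + 2) := by
          intro x hx
          rw [Finset.mem_insert, Finset.mem_singleton] at hx
          rw [Finset.mem_range]
          omega
        have h4 := Finset.sum_le_sum_of_subset_of_nonneg (f := fun k => l (a + k)) h3
          (fun i hi _ => hpos i hi)
        rw [Finset.sum_pair (by omega)] at h4
        exact h4
      linarith
  -- several windows
  have hmany : ∀ q : ℕ, q * (N + 2) ≤ m → d * q ≤ ∑ k ∈ Finset.range (q * (N + 2)), l k := by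
    intro q
    induction q with
    | zero => intro _; simp
    | succ q ih =>
      intro hq
      have e : (q + 1) * (N + 2) = q * (N + 2) + (N + 2) := by ring
      rw [e] at hq ⊢
      rw [Finset.sum_range_add]
      have h1 := ih (by omega)
      have h2 := hwin _ hq
      push_cast
      linarith
  have hq : m / (N + 2) * (N + 2) ≤ m := Nat.div_mul_le_self _ _
  have h1 := hmany _ hq
  have h2 : ∑ k ∈ Finset.range (m / (N + 2) * (N + 2)), l k ≤ ∑ k ∈ Finset.range m, l k := by
    refine Finset.sum_le_sum_of_subset_of_nonneg (Finset.range_subset_range.2 hq) ?_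
    intro i hi _
    exact (hl i (Finset.mem_range.1 hi)).le
  have h3 : ((m / (N + 2) : ℕ) : ℝ) ≤ T / d := by
    rw [le_div_iff₀ hd0]
    linarith
  have h4 : m / (N + 2) ≤ ⌊T / d⌋₊ := Nat.le_floor h3
  have h5 : m < (N + 2) * (m / (N + 2) + 1) := Nat.lt_mul_div_succ m (by omega)
  have h6 : (N + 2) * (m / (N + 2) + 1) ≤ (N + 2) * (⌊T / d⌋₊ + 1) :=
    Nat.mul_le_mul_left _ (by omega)
  omega

end Pool.Agent.W12.BB.Unif
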